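import Mathlib

/-! # MP_05df08_co, Part A: recutting configurations

A state consists of a point `x` and three functions `a`, `c`, `e` of a real parameter `u`. A step
with length `r` and unit vector `w` adds `inc r w s` to `x`. -/

namespace Pool.Agent.UDQ

open Complex ComplexConjugate

@[ext] structure St where
  x : ℂ
  a : ℝ → ℂ
  c : ℝ → ℂ
  e : ℝ → ℂ

noncomputable def St.init : St := ⟨0, fun _ => 1, fun _ => 0, fun _ => 0⟩

noncomputable def tau (r : ℝ) (w : Circle) (s : St) : ℂ :=
  r * s.a (1 / r ^ 2) - conj (w : ℂ) * s.c (1 / r ^ 2)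

noncomputable def inc (r : ℝ) (w : Circle) (s : St) : ℂ :=
  r * w * tau r w s / conj (tau r w s)

noncomputable def stp (i : ℂ) (s : St) : St where
  x := s.x + i
  a u := s.a u + i * u * conj (s.c u)
  c u := s.c u + i * conj (s.a u)
  e u := s.e u + (s.x + i) * conj i * s.c u

noncomputable def step (r : ℝ) (w : Circle) (s : St) : St := stp (inc r w s) s

noncomputable def nrm (s : St) (u : ℝ) : ℝ := normSq (s.a u) - u * normSq (s.c u)

theorem nrm_stp (i : ℂ) (s : St) (u : ℝ) :
    nrm (stp i s) u = nrm s u * (1 - u * normSq i) := by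
  have h : ((nrm (stp i s) u : ℝ) : ℂ) = ((nrm s u * (1 - u * normSq i) : ℝ) : ℂ) := by
    unfold nrm stp
    push_cast
    simp only [← mul_conj, map_add, map_mul, conj_conj, conj_ofReal]
    ring
  exact_mod_cast h

theorem circle_mul_conj (w : Circle) : (w : ℂ) * conj (w : ℂ) = 1 := by
  rw [mul_conj, Circle.normSq_coe]; norm_num

theorem tau_ne {r : ℝ} (hr : 0 < r) (w : Circle) {s : St} (h : nrm s (1 / r ^ 2) ≠ 0) :
    tau r w s ≠ 0 := by
  intro h0
  apply h
  unfold tau at h0
  have h1 : (r : ℂ) * s.a (1 / r ^ 2) = conj (w : ℂ) * s.c (1 / r ^ 2) := sub_eq_zero.1 h0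
  have h2 := congrArg normSq h1
  rw [normSq_mul, normSq_mul, normSq_conj, Circle.normSq_coe, normSq_ofReal, one_mul] at h2
  unfold nrm
  rw [← h2]
  field_simp
  ring

theorem normSq_inc {r : ℝ} {w : Circle} {s : St} (h : tau r w s ≠ 0) :
    normSq (inc r w s) = r ^ 2 := by
  unfold inc
  have h1 : normSq (tau r w s) ≠ 0 := (map_ne_zero _).2 h
  rw [normSq_div, normSq_mul, normSq_mul, normSq_conj, Circle.normSq_coe, normSq_ofReal]
  field_simp

theorem norm_inc {r : ℝ} (hr : 0 < r) {w : Circle} {s : St} (h : tau r w s ≠ 0) :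
    ‖inc r w s‖ = r := by
  have h1 := normSq_inc h
  rw [normSq_eq_norm_sq] at h1
  exact (pow_left_inj₀ (norm_nonneg _) hr.le (by norm_num)).1 h1

theorem tau_stp {r : ℝ} (hr : 0 < r) (w : Circle) (i : ℂ) {s : St} (h : tau r w s ≠ 0) :
    tau r w (stp i s) = (inc r w s - i) * conj (tau r w s) * conj (w : ℂ) / r := by
  have hT : conj (tau r w s) ≠ 0 := (map_ne_zero _).2 h
  have hr' : (r : ℂ) ≠ 0 := by exact_mod_cast hr.ne'
  have hw := circle_mul_conj w
  have e1 : (inc r w s - i) * conj (tau r w s) * conj (w : ℂ) / r =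
      tau r w s - i * conj (w : ℂ) * conj (tau r w s) / r := by
    unfold inc
    rw [sub_mul, div_mul_cancel₀ _ hT]
    field_simp
    linear_combination (r * tau r w s) * hw
  rw [e1]
  unfold tau stp
  simp only [map_sub, map_mul, conj_conj, conj_ofReal]
  push_cast
  field_simp
  linear_combination (-i * conj (s.c (1 / r ^ 2))) * hw

theorem inc_stp {r : ℝ} (hr : 0 < r) (w : Circle) (i : ℂ) {s : St} (h : tau r w s ≠ 0) :
    inc r w (stp i s) = conj (inc r w s) * (inc r w s - i) / conj (inc r w s - i) := by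
  have hT : conj (tau r w s) ≠ 0 := (map_ne_zero _).2 h
  have hr' : (r : ℂ) ≠ 0 := by exact_mod_cast hr.ne'
  have hw := circle_mul_conj w
  have hw0 : (w : ℂ) ≠ 0 := Circle.coe_ne_zero w
  by_cases hi : inc r w s - i = 0
  · have : tau r w (stp i s) = 0 := by rw [tau_stp hr w i h, hi]; simp
    rw [hi]; unfold inc; rw [this]; simp
  have hi' : conj (inc r w s - i) ≠ 0 := (map_ne_zero _).2 hi
  have h1 : inc r w (stp i s) =
      r * w * ((inc r w s - i) * conj (tau r w s) * conj (w : ℂ) / r) /
        conj ((inc r w s - i) * conj (tau r w s) * conj (w : ℂ) / r) := by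
    rw [← tau_stp hr w i h]; rfl
  have h2 : conj (inc r w s) = r * conj (w : ℂ) * conj (tau r w s) / tau r w s := by
    unfold inc
    simp only [map_div₀, map_mul, conj_conj, conj_ofReal]
  rw [h1, h2]
  simp only [map_div₀, map_mul, conj_conj, conj_ofReal]
  field_simp

theorem step_comm {r₁ r₂ : ℝ} (h₁ : 0 < r₁) (h₂ : 0 < r₂) (w₁ w₂ : Circle) {s : St}
    (t₁ : tau r₁ w₁ s ≠ 0) (t₂ : tau r₂ w₂ s ≠ 0) (hne : r₁ ≠ r₂) :
    step r₂ w₂ (step r₁ w₁ s) = step r₁ w₁ (step r₂ w₂ s) := by
  unfold step
  rw [inc_stp h₂ w₂ _ t₂, inc_stp h₁ w₁ _ t₁]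
  have n₁ := norm_inc h₁ t₁
  have n₂ := norm_inc h₂ t₂
  set p := inc r₁ w₁ s with hp
  set q := inc r₂ w₂ s with hq
  have hd : p - q ≠ 0 := by
    intro h0
    have : p = q := sub_eq_zero.1 h0
    rw [this] at n₁
    exact hne (n₁.symm.trans n₂)
  have hd1 : conj p - conj q ≠ 0 := by rw [← map_sub]; exact (map_ne_zero _).2 hd
  have hd2 : conj q - conj p ≠ 0 := by
    intro h0; apply hd1; linear_combination -h0
  have e1 : p + conj q * (q - p) / conj (q - p) = q + conj p * (p - q) / conj (p - q) := by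
    rw [map_sub, map_sub]
    field_simp
    ring
  have e2 : conj q * (q - p) / conj (q - p) * conj p =
      conj p * (p - q) / conj (p - q) * conj q := by
    rw [map_sub, map_sub]
    field_simp
    ring
  set P := conj p * (p - q) / conj (p - q) with hP
  set Q := conj q * (q - p) / conj (q - p) with hQ
  have e1' : conj p + conj Q = conj q + conj P := by
    rw [← map_add, ← map_add, e1]
  have e2' : conj Q * p = conj P * q := by
    have := congrArg conj e2
    simpa only [map_mul, conj_conj] using this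
  clear_value P Q p q
  ext u
  · simp only [stp]; linear_combination e1
  · simp only [stp, map_add, map_mul, conj_conj]
    linear_combination (u * conj (s.c u)) * e1 + (u * s.a u) * e2
  · simp only [stp, map_add, map_mul, conj_conj, conj_ofReal]
    linear_combination (conj (s.a u)) * e1 + (u * s.c u) * e2
  · simp only [stp]
    linear_combination (conj (s.a u) * conj P * q + s.c u * (conj q + conj P)) * e1 +
      (s.c u * (s.x + p + Q)) * e1' - s.c u * e2 + (conj (s.a u) * (s.x + p + Q)) * e2'

end Pool.Agent.UDQ
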