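import Pool.Agent.Lib.MP_05df08_co.Q.A1

/-! # MP_05df08_co, Part A: the configuration of a finite set of directions -/

namespace Pool.Agent.UDQ

open Complex ComplexConjugate

variable {ι : Type*}

noncomputable def run (al : ι → ℝ) (w : ι → Circle) : List ι → St
  | [] => St.init
  | j :: L => step (al j) (w j) (run al w L)

theorem prod_ne {al : ι → ℝ} (hpos : ∀ j, 0 < al j) (hinj : Function.Injective al) {j : ι}
    {L : List ι} (hj : j ∉ L) : (L.map (fun i => 1 - 1 / al j ^ 2 * al i ^ 2)).prod ≠ 0 := by
  rw [ne_eq, List.prod_eq_zero_iff]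
  intro h
  obtain ⟨i, hi, h0⟩ := List.mem_map.1 h
  have hjp := hpos j
  have hip := hpos i
  have h1 : al i ^ 2 = al j ^ 2 := by
    field_simp at h0
    linarith
  have h2 : al i = al j := (pow_left_inj₀ hip.le hjp.le (by norm_num)).1 h1
  exact hj (hinj h2 ▸ hi)

theorem nrm_run {al : ι → ℝ} (hpos : ∀ j, 0 < al j) (hinj : Function.Injective al)
    (w : ι → Circle) : ∀ L : List ι, L.Nodup → ∀ u : ℝ,
      nrm (run al w L) u = (L.map (fun j => 1 - u * al j ^ 2)).prod
  | [], _, u => by simp [run, nrm, St.init]
  | j :: L, hL, u => by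
    have hL' := List.nodup_cons.1 hL
    have ih := nrm_run hpos hinj w L hL'.2
    have ht : tau (al j) (w j) (run al w L) ≠ 0 :=
      tau_ne (hpos j) _ (by rw [ih]; exact prod_ne hpos hinj hL'.1)
    rw [run, step, nrm_stp, normSq_inc ht, ih, List.map_cons, List.prod_cons]
    ring

theorem tau_run_ne {al : ι → ℝ} (hpos : ∀ j, 0 < al j) (hinj : Function.Injective al)
    (w : ι → Circle) {L : List ι} (hL : L.Nodup) {j : ι} (hj : j ∉ L) (z : Circle) :
    tau (al j) z (run al w L) ≠ 0 :=
  tau_ne (hpos j) _ (by rw [nrm_run hpos hinj w L hL]; exact prod_ne hpos hinj hj)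

theorem run_perm {al : ι → ℝ} (hpos : ∀ j, 0 < al j) (hinj : Function.Injective al)
    (w : ι → Circle) {L L' : List ι} (h : L.Perm L') : L.Nodup → run al w L = run al w L' := by
  induction h with
  | nil => intro _; rfl
  | cons a _ ih => intro h; rw [run, run, ih (List.nodup_cons.1 h).2]
  | swap a b l =>
    intro h
    rw [List.nodup_cons, List.nodup_cons] at h
    obtain ⟨h1, h2, h3⟩ := h
    have hab : b ≠ a := fun h => h1 (h ▸ List.mem_cons_self)
    have hb : b ∉ l := fun h => h1 (List.mem_cons_of_mem _ h)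
    rw [run, run, run, run]
    exact step_comm (hpos a) (hpos b) _ _ (tau_run_ne hpos hinj w h3 h2 _)
      (tau_run_ne hpos hinj w h3 hb _) (fun h => hab (hinj h.symm))
  | trans h1 _ ih1 ih2 =>
    intro h
    rw [ih1 h, ih2 (h1.nodup_iff.1 h)]

/-- The state of a finite set of directions. -/
noncomputable def st (al : ι → ℝ) (w : ι → Circle) (D : Finset ι) : St := run al w D.toList

/-- The configuration. -/
noncomputable def X (al : ι → ℝ) (w : ι → Circle) (D : Finset ι) : ℂ := (st al w D).x

theorem st_empty (al : ι → ℝ) (w : ι → Circle) : st al w ∅ = St.init := by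
  simp [st, run]

theorem X_empty (al : ι → ℝ) (w : ι → Circle) : X al w ∅ = 0 := by
  simp [X, st_empty, St.init]

section
variable [DecidableEq ι]

theorem st_insert {al : ι → ℝ} (hpos : ∀ j, 0 < al j) (hinj : Function.Injective al)
    (w : ι → Circle) {j : ι} {D : Finset ι} (hj : j ∉ D) :
    st al w (insert j D) = step (al j) (w j) (st al w D) := by
  unfold st
  rw [run_perm hpos hinj w (Finset.toList_insert hj) (Finset.nodup_toList _), run]

omit [DecidableEq ι] in
theorem nrm_st {al : ι → ℝ} (hpos : ∀ j, 0 < al j) (hinj : Function.Injective al)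
    (w : ι → Circle) (D : Finset ι) (u : ℝ) :
    nrm (st al w D) u = ∏ j ∈ D, (1 - u * al j ^ 2) := by
  unfold st
  rw [nrm_run hpos hinj w _ (Finset.nodup_toList _), Finset.prod_map_toList]

omit [DecidableEq ι] in
theorem tau_st_ne {al : ι → ℝ} (hpos : ∀ j, 0 < al j) (hinj : Function.Injective al)
    (w : ι → Circle) {D : Finset ι} {j : ι} (hj : j ∉ D) (z : Circle) :
    tau (al j) z (st al w D) ≠ 0 :=
  tau_run_ne hpos hinj w (Finset.nodup_toList _) (by simpa using hj) z

theorem X_insert {al : ι → ℝ} (hpos : ∀ j, 0 < al j) (hinj : Function.Injective al)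
    (w : ι → Circle) {j : ι} {D : Finset ι} (hj : j ∉ D) :
    X al w (insert j D) = X al w D + inc (al j) (w j) (st al w D) := by
  unfold X
  rw [st_insert hpos hinj w hj]
  rfl

theorem X_single {al : ι → ℝ} (hpos : ∀ j, 0 < al j) (hinj : Function.Injective al)
    (w : ι → Circle) (j : ι) : X al w {j} = al j * w j := by
  have h := X_insert hpos hinj w (Finset.notMem_empty j)
  have hp : (al j : ℂ) ≠ 0 := by exact_mod_cast (hpos j).ne'
  have h1 : inc (al j) (w j) (st al w ∅) = al j * w j := by
    rw [st_empty]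
    simp [inc, tau, St.init, hp]
  rw [insert_empty_eq, h1, X_empty, zero_add] at h
  exact h

theorem C1 {al : ι → ℝ} (hpos : ∀ j, 0 < al j) (hinj : Function.Injective al)
    (w : ι → Circle) {j : ι} {D : Finset ι} (hj : j ∉ D) :
    ‖X al w (insert j D) - X al w D‖ = al j := by
  rw [X_insert hpos hinj w hj, add_sub_cancel_left]
  exact norm_inc (hpos j) (tau_st_ne hpos hinj w hj _)

theorem C2 {al : ι → ℝ} (hpos : ∀ j, 0 < al j) (hinj : Function.Injective al)
    (w : ι → Circle) {i j : ι} (hij : i ≠ j) {D : Finset ι} (hi : i ∉ D) (hj : j ∉ D) :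
    (X al w (insert j (insert i D)) - X al w D) *
      conj (X al w (insert i D) - X al w (insert j D)) = ((al i ^ 2 - al j ^ 2 : ℝ) : ℂ) := by
  have hj' : j ∉ insert i D := by
    rw [Finset.mem_insert]; rintro (h | h)
    · exact hij h.symm
    · exact hj h
  have ti := tau_st_ne hpos hinj w hi (w i)
  have tj := tau_st_ne hpos hinj w hj (w j)
  have hne : inc (al i) (w i) (st al w D) - inc (al j) (w j) (st al w D) ≠ 0 := by
    intro h
    have h1 := norm_inc (hpos i) ti
    rw [sub_eq_zero.1 h, norm_inc (hpos j) tj] at h1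
    exact hij (hinj h1.symm)
  have n1 : inc (al i) (w i) (st al w D) * conj (inc (al i) (w i) (st al w D)) = (al i : ℂ) ^ 2 := by
    rw [mul_conj, normSq_inc ti]; push_cast; rfl
  have n2 : inc (al j) (w j) (st al w D) * conj (inc (al j) (w j) (st al w D)) = (al j : ℂ) ^ 2 := by
    rw [mul_conj, normSq_inc tj]; push_cast; rfl
  rw [X_insert hpos hinj w hj', X_insert hpos hinj w hi, X_insert hpos hinj w hj,
    st_insert hpos hinj w hi, step, inc_stp (hpos j) _ _ tj]
  set p := inc (al i) (w i) (st al w D)
  set q := inc (al j) (w j) (st al w D)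
  have hd1 : conj p - conj q ≠ 0 := by rw [← map_sub]; exact (map_ne_zero _).2 hne
  have hd2 : conj q - conj p ≠ 0 := by
    intro h0; apply hd1; linear_combination -h0
  push_cast
  rw [← n1, ← n2]
  simp only [map_sub, map_add]
  field_simp
  ring

/-- The symmetric form of the two relations. -/
structure IsConf (al : ι → ℝ) (Y : Finset ι → ℂ) : Prop where
  c1 : ∀ S j, ‖Y (symmDiff S {j}) - Y S‖ = al j
  c2 : ∀ S i j, i ≠ j → (Y (symmDiff (symmDiff S {i}) {j}) - Y S) *
    conj (Y (symmDiff S {i}) - Y (symmDiff S {j})) = ((al i ^ 2 - al j ^ 2 : ℝ) : ℂ)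

theorem sd_notMem {S : Finset ι} {j : ι} (h : j ∉ S) : symmDiff S {j} = insert j S := by
  ext x
  simp only [Finset.mem_symmDiff, Finset.mem_singleton, Finset.mem_insert]
  constructor
  · rintro (⟨h1, _⟩ | ⟨h1, _⟩)
    · exact Or.inr h1
    · exact Or.inl h1
  · rintro (h1 | h1)
    · exact Or.inr ⟨h1, h1 ▸ h⟩
    · exact Or.inl ⟨h1, fun h2 => h (h2 ▸ h1)⟩

theorem sd_insert {S : Finset ι} {j : ι} (h : j ∉ S) : symmDiff (insert j S) {j} = S := by
  ext x
  simp only [Finset.mem_symmDiff, Finset.mem_singleton, Finset.mem_insert]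
  constructor
  · rintro (⟨h1 | h1, h2⟩ | ⟨h1, h2⟩)
    · exact absurd h1 h2
    · exact h1
    · exact absurd (Or.inl h1) h2
  · intro h1
    exact Or.inl ⟨Or.inr h1, fun h2 => h (h2 ▸ h1)⟩

theorem isConf_X {al : ι → ℝ} (hpos : ∀ j, 0 < al j) (hinj : Function.Injective al)
    (w : ι → Circle) : IsConf al (X al w) where
  c1 S j := by
    by_cases h : j ∈ S
    · obtain ⟨E, hE, rfl⟩ : ∃ E, j ∉ E ∧ insert j E = S :=
        ⟨S.erase j, Finset.notMem_erase _ _, Finset.insert_erase h⟩
      rw [sd_insert hE, norm_sub_rev]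
      exact C1 hpos hinj w hE
    · rw [sd_notMem h]; exact C1 hpos hinj w h
  c2 S i j hij := by
    by_cases hi : i ∈ S
    · obtain ⟨E, hE, rfl⟩ : ∃ E, i ∉ E ∧ insert i E = S :=
        ⟨S.erase i, Finset.notMem_erase _ _, Finset.insert_erase hi⟩
      by_cases hj : j ∈ E
      · obtain ⟨E', hE', rfl⟩ : ∃ E', j ∉ E' ∧ insert j E' = E :=
          ⟨E.erase j, Finset.notMem_erase _ _, Finset.insert_erase hj⟩
        have hi' : i ∉ E' := fun h => hE (Finset.mem_insert_of_mem h)
        have hji : j ∉ insert i E' := by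
          rw [Finset.mem_insert]; rintro (h | h)
          · exact hij h.symm
          · exact hE' h
        rw [sd_insert hE, sd_insert hE', Finset.insert_comm i j E', sd_insert hji]
        have := C2 hpos hinj w hij hi' hE'
        rw [← this]
        simp only [map_sub]
        ring
      · have hji : j ∉ insert i E := by
          rw [Finset.mem_insert]; rintro (h | h)
          · exact hij h.symm
          · exact hj h
        rw [sd_insert hE, sd_notMem hj, sd_notMem hji]
        have := congrArg conj (C2 hpos hinj w hij hE hj)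
        rw [conj_ofReal] at this
        rw [← this]
        simp only [map_sub, map_mul, conj_conj]
        ring
    · by_cases hj : j ∈ S
      · obtain ⟨E, hE, rfl⟩ : ∃ E, j ∉ E ∧ insert j E = S :=
          ⟨S.erase j, Finset.notMem_erase _ _, Finset.insert_erase hj⟩
        have hiE : i ∉ E := fun h => hi (Finset.mem_insert_of_mem h)
        have hji : j ∉ insert i E := by
          rw [Finset.mem_insert]; rintro (h | h)
          · exact hij h.symm
          · exact hE h
        rw [sd_notMem hi, Finset.insert_comm i j E, sd_insert hji, sd_insert hE]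
        have := congrArg conj (C2 hpos hinj w hij hiE hE)
        rw [conj_ofReal] at this
        rw [← this]
        simp only [map_sub, map_mul, conj_conj]
        ring
      · have hji : j ∉ insert i S := by
          rw [Finset.mem_insert]; rintro (h | h)
          · exact hij h.symm
          · exact hj h
        rw [sd_notMem hi, sd_notMem hj, sd_notMem hji]
        exact C2 hpos hinj w hij hi hj

theorem IsConf.ext {al : ι → ℝ} (hinj : Function.Injective al) {Y Z : Finset ι → ℂ}
    (hY : IsConf al Y) (hZ : IsConf al Z) (h0 : Y ∅ = Z ∅) (h1 : ∀ j, Y {j} = Z {j}) :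
    ∀ n : ℕ, ∀ S : Finset ι, S.card = n → Y S = Z S := by
  intro n
  induction n using Nat.strong_induction_on with
  | _ n ih =>
    intro S hS
    by_cases hn : n = 0
    · rw [hn, Finset.card_eq_zero] at hS; rw [hS, h0]
    by_cases hn1 : n = 1
    · rw [hn1, Finset.card_eq_one] at hS
      obtain ⟨a, rfl⟩ := hS
      exact h1 a
    have h2 : 1 < S.card := by omega
    obtain ⟨i, hi, j, hj, hij⟩ := Finset.one_lt_card.1 h2
    obtain ⟨E, hE, rfl⟩ : ∃ E, j ∉ E ∧ insert j E = S :=
      ⟨S.erase j, Finset.notMem_erase _ _, Finset.insert_erase hj⟩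
    have hiE : i ∈ E := by
      rcases Finset.mem_insert.1 hi with h | h
      · exact absurd h hij
      · exact h
    obtain ⟨F, hF, rfl⟩ : ∃ F, i ∉ F ∧ insert i F = E :=
      ⟨E.erase i, Finset.notMem_erase _ _, Finset.insert_erase hiE⟩
    have hjF : j ∉ F := fun h => hE (Finset.mem_insert_of_mem h)
    have cE := Finset.card_insert_of_notMem hE
    have cF := Finset.card_insert_of_notMem hF
    have cG := Finset.card_insert_of_notMem hjF
    have e1 := ih (insert i F).card (by omega) _ rfl
    have e2 := ih (insert j F).card (by omega) _ rfl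
    have e3 := ih F.card (by omega) _ rfl
    have y := hY.c2 F i j hij
    have z := hZ.c2 F i j hij
    have y1 := hY.c1 F i
    have y2 := hY.c1 F j
    rw [sd_notMem hF] at y1
    rw [sd_notMem hjF] at y2
    rw [sd_notMem hF, sd_notMem hjF, sd_notMem hE] at y z
    have hne : Y (insert i F) - Y (insert j F) ≠ 0 := by
      intro h
      rw [sub_eq_zero.1 h, y2] at y1
      exact hij (hinj y1.symm)
    have hne' : conj (Y (insert i F) - Y (insert j F)) ≠ 0 := (map_ne_zero _).2 hne
    rw [← e1, ← e2, ← e3, ← y] at z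
    have := mul_right_cancel₀ hne' z
    linear_combination -this

theorem rebase {al : ι → ℝ} (hpos : ∀ j, 0 < al j) (hinj : Function.Injective al)
    (w' : ι → Circle) (O : Finset ι) :
    ∃ w : ι → Circle, ∀ U, X al w U - X al w O = X al w' (symmDiff U O) := by
  have hX := isConf_X hpos hinj w'
  have hc : ∀ S T : Finset ι, symmDiff (symmDiff S T) O = symmDiff (symmDiff S O) T := by
    intro S T
    rw [symmDiff_assoc, symmDiff_comm T O, ← symmDiff_assoc]
  have hY : IsConf al (fun U => X al w' (symmDiff U O) - X al w' O) :=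
    { c1 := fun S j => by
        have := hX.c1 (symmDiff S O) j
        rw [← this, hc S {j}]
        congr 1
        ring
      c2 := fun S i j hij => by
        have := hX.c2 (symmDiff S O) i j hij
        rw [← this, hc (symmDiff S {i}) {j}, hc S {i}, hc S {j}]
        simp only [map_sub]
        ring }
  have hn : ∀ j, ‖(X al w' (symmDiff {j} O) - X al w' O) / (al j : ℂ)‖ = 1 := by
    intro j
    have h := hX.c1 O j
    rw [norm_div, symmDiff_comm, h, norm_real, Real.norm_of_nonneg (hpos j).le,
      div_self (hpos j).ne']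
  refine ⟨fun j => ⟨_, mem_sphere_zero_iff_norm.2 (hn j)⟩, fun U => ?_⟩
  set w : ι → Circle := fun j => ⟨_, mem_sphere_zero_iff_norm.2 (hn j)⟩ with hw
  have key : ∀ U, X al w U = X al w' (symmDiff U O) - X al w' O := by
    intro U
    refine IsConf.ext hinj (isConf_X hpos hinj w) hY ?_ ?_ _ U rfl
    · show X al w ∅ = X al w' (symmDiff ∅ O) - X al w' O
      rw [X_empty, ← Finset.bot_eq_empty, bot_symmDiff, sub_self]
    · intro j
      rw [X_single hpos hinj w j]
      show (al j : ℂ) * ((X al w' (symmDiff {j} O) - X al w' O) / (al j : ℂ)) = _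
      have : (al j : ℂ) ≠ 0 := by exact_mod_cast (hpos j).ne'
      field_simp
  rw [key U, key O, symmDiff_self]
  simp [X_empty]

/-! ### Adding a dummy direction -/

omit [DecidableEq ι] in
theorem run_map {κ : Type*} (al : ι → ℝ) (w : ι → Circle) (f : κ → ι) (L : List κ) :
    run al w (L.map f) = run (fun k => al (f k)) (fun k => w (f k)) L := by
  induction L with
  | nil => rfl
  | cons a l ih => rw [List.map_cons, run, run, ih]

omit [DecidableEq ι] in
theorem st_map {κ : Type*} {al : ι → ℝ} (hpos : ∀ j, 0 < al j) (hinj : Function.Injective al)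
    (w : ι → Circle) (f : κ ↪ ι) (D : Finset κ) :
    st al w (D.map f) = st (fun k => al (f k)) (fun k => w (f k)) D := by
  unfold st
  rw [← run_map al w f D.toList]
  refine run_perm hpos hinj w ?_ (Finset.nodup_toList _)
  rw [← Multiset.coe_eq_coe, Finset.coe_toList, Finset.map_val, ← Multiset.map_coe,
    Finset.coe_toList]

end

end Pool.Agent.UDQ
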