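import Pool.Agent.Lib.MP_05df08_co.Q.A2

/-! # MP_05df08_co, Part A: genericity -/

namespace Pool.Agent.UDQ

open Complex ComplexConjugate Filter Topology

variable {ι : Type*}

/-- Unit vectors from angles. -/
noncomputable def ew (φ : ι → ℝ) : ι → Circle := fun j => Circle.exp (φ j)

theorem exists_angle (w : ι → Circle) : ∃ φ : ι → ℝ, ew φ = w :=
  ⟨fun j => Complex.arg (w j), by funext j; exact Circle.exp_arg (w j)⟩

theorem run_congr (al : ι → ℝ) {w w' : ι → Circle} {L : List ι} (h : ∀ i ∈ L, w i = w' i) :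
    run al w L = run al w' L := by
  induction L with
  | nil => rfl
  | cons a l ih =>
    rw [run, run, ih (fun i hi => h i (List.mem_cons_of_mem _ hi)), h a List.mem_cons_self]

theorem st_congr (al : ι → ℝ) {w w' : ι → Circle} {D : Finset ι} (h : ∀ i ∈ D, w i = w' i) :
    st al w D = st al w' D :=
  run_congr al (fun i hi => h i (Finset.mem_toList.1 hi))

/-! ### Analyticity -/

theorem conj_an {E : Type*} [NormedAddCommGroup E] [NormedSpace ℝ E] {f : E → ℂ} {p : E}
    (h : AnalyticAt ℝ f p) : AnalyticAt ℝ (fun q => conj (f q)) p :=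
  ((Complex.conjCLE : ℂ →L[ℝ] ℂ).analyticAt (f p)).comp h

section
variable [Fintype ι]

structure AnSt (s : (ι → ℝ) → St) : Prop where
  x : ∀ φ, AnalyticAt ℝ (fun φ => (s φ).x) φ
  a : ∀ u φ, AnalyticAt ℝ (fun φ => (s φ).a u) φ
  c : ∀ u φ, AnalyticAt ℝ (fun φ => (s φ).c u) φ
  e : ∀ u φ, AnalyticAt ℝ (fun φ => (s φ).e u) φ

theorem ew_an (j : ι) (φ : ι → ℝ) : AnalyticAt ℝ (fun φ : ι → ℝ => ((ew φ j : Circle) : ℂ)) φ := by
  have h1 : AnalyticAt ℝ (fun φ : ι → ℝ => φ j) φ :=
    (ContinuousLinearMap.proj (R := ℝ) (φ := fun _ : ι => ℝ) j).analyticAt φ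
  have h2 : AnalyticAt ℝ (fun φ : ι → ℝ => ((φ j : ℝ) : ℂ)) φ :=
    AnalyticAt.comp (g := fun x : ℝ => (x : ℂ)) (f := fun ψ : ι → ℝ => ψ j) (x := φ)
      (Complex.ofRealCLM.analyticAt _) h1
  have h3 : AnalyticAt ℝ (fun φ : ι → ℝ => ((φ j : ℝ) : ℂ) * I) φ := h2.mul analyticAt_const
  have h4 : AnalyticAt ℝ cexp (((φ j : ℝ) : ℂ) * I) := analyticAt_cexp.restrictScalars
  have h5 := AnalyticAt.comp (g := cexp) (f := fun ψ : ι → ℝ => ((ψ j : ℝ) : ℂ) * I) (x := φ) h4 h3
  refine h5.congr (Eventually.of_forall fun ψ => ?_)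
  simp [ew, Circle.coe_exp]

theorem AnSt.step {s : (ι → ℝ) → St} (h : AnSt s) (r : ℝ) (j : ι)
    (ht : ∀ φ, tau r (ew φ j) (s φ) ≠ 0) : AnSt (fun φ => step r (ew φ j) (s φ)) := by
  have hτ : ∀ φ, AnalyticAt ℝ (fun φ => tau r (ew φ j) (s φ)) φ := fun φ =>
    (analyticAt_const.mul (h.a _ φ)).sub ((conj_an (ew_an j φ)).mul (h.c _ φ))
  have hi : ∀ φ, AnalyticAt ℝ (fun φ => inc r (ew φ j) (s φ)) φ := fun φ =>
    (((analyticAt_const.mul (ew_an j φ)).mul (hτ φ))).div (conj_an (hτ φ))
      ((map_ne_zero _).2 (ht φ))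
  exact
    { x := fun φ => (h.x φ).add (hi φ)
      a := fun u φ => (h.a u φ).add (((hi φ).mul analyticAt_const).mul (conj_an (h.c u φ)))
      c := fun u φ => (h.c u φ).add ((hi φ).mul (conj_an (h.a u φ)))
      e := fun u φ => (h.e u φ).add
        ((((h.x φ).add (hi φ)).mul (conj_an (hi φ))).mul (h.c u φ)) }

theorem an_run {al : ι → ℝ} (hpos : ∀ j, 0 < al j) (hinj : Function.Injective al) :
    ∀ L : List ι, L.Nodup → AnSt (fun φ => run al (ew φ) L)
  | [], _ => ⟨fun _ => analyticAt_const, fun _ _ => analyticAt_const, fun _ _ => analyticAt_const,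
      fun _ _ => analyticAt_const⟩
  | j :: L, hL => by
    have hL' := List.nodup_cons.1 hL
    exact (an_run hpos hinj L hL'.2).step (al j) j
      (fun φ => tau_run_ne hpos hinj (ew φ) hL'.2 hL'.1 _)

theorem an_st {al : ι → ℝ} (hpos : ∀ j, 0 < al j) (hinj : Function.Injective al)
    (D : Finset ι) : AnSt (fun φ => st al (ew φ) D) :=
  an_run hpos hinj _ (Finset.nodup_toList D)

theorem an_X {al : ι → ℝ} (hpos : ∀ j, 0 < al j) (hinj : Function.Injective al)
    (D : Finset ι) (φ : ι → ℝ) : AnalyticAt ℝ (fun φ => X al (ew φ) D) φ :=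
  (an_st hpos hinj D).x φ

/-- Finitely many nonzero analytic functions are simultaneously nonzero on a dense set. -/
theorem dense_ne {κ : Type*} (s : Finset κ) (f : κ → (ι → ℝ) → ℂ)
    (hf : ∀ k ∈ s, ∀ φ, AnalyticAt ℝ (f k) φ) (hn : ∀ k ∈ s, ∃ φ, f k φ ≠ 0) :
    IsOpen {φ | ∀ k ∈ s, f k φ ≠ 0} ∧ Dense {φ | ∀ k ∈ s, f k φ ≠ 0} := by
  classical
  induction s using Finset.induction_on with
  | empty => simp
  | insert a s ha ih =>
    obtain ⟨ho, hd⟩ := ih (fun k hk => hf k (Finset.mem_insert_of_mem hk))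
      (fun k hk => hn k (Finset.mem_insert_of_mem hk))
    have hfa := hf a (Finset.mem_insert_self a s)
    obtain ⟨φ0, hφ0⟩ := hn a (Finset.mem_insert_self a s)
    have hc : Continuous (f a) := continuous_iff_continuousAt.2 fun φ => (hfa φ).continuousAt
    have hoa : IsOpen {φ | f a φ ≠ 0} := isOpen_ne_fun hc continuous_const
    have hda : Dense {φ | f a φ ≠ 0} := by
      intro φ
      by_contra hcl
      rw [mem_closure_iff_nhds] at hcl
      push Not at hcl
      obtain ⟨t, ht, hte⟩ := hcl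
      have h0 : f a =ᶠ[𝓝 φ] (fun _ => (0:ℂ)) := by
        filter_upwards [ht] with ψ hψ
        by_contra hne
        have : ψ ∈ t ∩ {φ | f a φ ≠ 0} := ⟨hψ, hne⟩
        rw [hte] at this
        exact this
      have h1 : AnalyticOnNhd ℝ (f a) Set.univ := fun x _ => hfa x
      have h2 : AnalyticOnNhd ℝ (fun _ : ι → ℝ => (0:ℂ)) Set.univ := fun x _ => analyticAt_const
      have := h1.eq_of_eventuallyEq h2 h0
      exact hφ0 (by rw [this])
    have he : {φ | ∀ k ∈ insert a s, f k φ ≠ 0} = {φ | f a φ ≠ 0} ∩ {φ | ∀ k ∈ s, f k φ ≠ 0} := by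
      ext φ
      simp
    rw [he]
    exact ⟨hoa.inter ho, hda.inter_of_isOpen_left hd hoa⟩

end

/-! ### The increment as a function of the unit vector -/

theorem inc_eq {r : ℝ} (z : Circle) (s : St) :
    inc r z s = r * ((r * s.a (1 / r ^ 2)) * z - s.c (1 / r ^ 2)) /
      (conj (r * s.a (1 / r ^ 2)) - conj (s.c (1 / r ^ 2)) * z) := by
  unfold inc tau
  have hw := circle_mul_conj z
  congr 1
  · linear_combination (-(r:ℂ) * s.c (1 / r ^ 2)) * hw
  · simp only [map_sub, map_mul, conj_conj, conj_ofReal]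
    ring

theorem den_eq {r : ℝ} (z : Circle) (s : St) :
    conj (tau r z s) = conj (r * s.a (1 / r ^ 2)) - conj (s.c (1 / r ^ 2)) * z := by
  unfold tau
  simp only [map_sub, map_mul, conj_conj, conj_ofReal]
  ring

theorem inc_inj {r : ℝ} (hr : 0 < r) {s : St} (h : nrm s (1 / r ^ 2) ≠ 0) {z z' : Circle}
    (he : inc r z s = inc r z' s) : z = z' := by
  have t1 : conj (tau r z s) ≠ 0 := (map_ne_zero _).2 (tau_ne hr z h)
  have t2 : conj (tau r z' s) ≠ 0 := (map_ne_zero _).2 (tau_ne hr z' h)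
  rw [inc_eq, inc_eq] at he
  rw [den_eq] at t1 t2
  have hr' : (r : ℂ) ≠ 0 := by exact_mod_cast hr.ne'
  rw [div_eq_div_iff t1 t2] at he
  have h1 : ((r : ℂ) ^ 2 * (s.a (1 / r ^ 2) * conj (s.a (1 / r ^ 2))) -
      s.c (1 / r ^ 2) * conj (s.c (1 / r ^ 2))) * ((z : ℂ) - z') = 0 := by
    have := mul_left_cancel₀ hr' (by simpa only [mul_assoc] using he)
    simp only [map_mul, conj_ofReal] at this
    linear_combination this
  rw [mul_conj, mul_conj] at h1
  have h2 : ((r : ℂ) ^ 2 * (normSq (s.a (1 / r ^ 2)) : ℂ) - (normSq (s.c (1 / r ^ 2)) : ℂ)) ≠ 0 := by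
    have : r ^ 2 * normSq (s.a (1 / r ^ 2)) - normSq (s.c (1 / r ^ 2)) ≠ 0 := by
      intro h0
      apply h
      unfold nrm
      field_simp
      linarith
    exact_mod_cast this
  have h3 := (mul_eq_zero.1 h1).resolve_left h2
  exact Circle.coe_injective (sub_eq_zero.1 h3)

theorem circle_two : (1 : Circle) ≠ -1 := by
  intro h
  have : ((1 : Circle) : ℂ) = ((-1 : Circle) : ℂ) := by rw [← h]
  rw [Circle.coe_one, Circle.coe_neg, Circle.coe_one] at this
  norm_num at this

section
variable [DecidableEq ι]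

/-- Two choices of the unit vector `j` give two different increments over the same state. -/
theorem two_inc {al : ι → ℝ} (hpos : ∀ j, 0 < al j) (hinj : Function.Injective al)
    {j : ι} {E : Finset ι} (hj : j ∉ E) : ∃ w w' : ι → Circle, (∀ i, i ≠ j → w i = w' i) ∧
      st al w E = st al w' E ∧
      inc (al j) (w j) (st al w E) ≠ inc (al j) (w' j) (st al w E) := by
  refine ⟨fun _ => 1, Function.update (fun _ => 1) j (-1), fun i hi => ?_, ?_, ?_⟩
  · rw [Function.update_of_ne hi]
  · refine st_congr al (fun i hi => ?_)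
    have hij : i ≠ j := fun h => hj (h ▸ hi)
    rw [Function.update_of_ne hij]
  · intro h
    rw [Function.update_self] at h
    refine circle_two (inc_inj (hpos j) ?_ h)
    rw [nrm_st hpos hinj]
    rw [← Finset.prod_map_toList]
    exact prod_ne hpos hinj (by simpa using hj)

theorem x_ne {al : ι → ℝ} (hpos : ∀ j, 0 < al j) (hinj : Function.Injective al)
    {D : Finset ι} (hD : D.Nonempty) : ∃ w, X al w D ≠ 0 := by
  obtain ⟨j, hj⟩ := hD
  obtain ⟨E, hE, rfl⟩ : ∃ E, j ∉ E ∧ insert j E = D :=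
    ⟨D.erase j, Finset.notMem_erase _ _, Finset.insert_erase hj⟩
  obtain ⟨w, w', h1, h2, h3⟩ := two_inc hpos hinj hE
  by_contra hc
  push Not at hc
  have e1 := hc w
  have e2 := hc w'
  rw [X_insert hpos hinj _ hE] at e1 e2
  have h4 : X al w E = X al w' E := by unfold X; rw [h2]
  rw [← h2, ← h4] at e2
  exact h3 (by linear_combination e1 - e2)

omit [DecidableEq ι] in
theorem nrm_ne {al : ι → ℝ} (hpos : ∀ j, 0 < al j) (hinj : Function.Injective al)
    (w : ι → Circle) {D : Finset ι} {k : ι} (hk : k ∉ D) : nrm (st al w D) (1 / al k ^ 2) ≠ 0 := by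
  rw [nrm_st hpos hinj, ← Finset.prod_map_toList]
  exact prod_ne hpos hinj (by simpa using hk)

theorem a_ne {al : ι → ℝ} (hpos : ∀ j, 0 < al j) (hinj : Function.Injective al)
    {D : Finset ι} {k : ι} (hk : k ∉ D) : ∃ w, (st al w D).a (1 / al k ^ 2) ≠ 0 := by
  rcases D.eq_empty_or_nonempty with rfl | ⟨j, hj⟩
  · exact ⟨fun _ => 1, by simp [st_empty, St.init]⟩
  obtain ⟨E, hE, rfl⟩ : ∃ E, j ∉ E ∧ insert j E = D :=
    ⟨D.erase j, Finset.notMem_erase _ _, Finset.insert_erase hj⟩
  obtain ⟨w, w', h1, h2, h3⟩ := two_inc hpos hinj hE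
  by_contra hc
  push Not at hc
  have e1 := hc w
  have e2 := hc w'
  rw [st_insert hpos hinj _ hE] at e1 e2
  rw [← h2] at e2
  simp only [step, stp] at e1 e2
  have hn := nrm_ne hpos hinj w (k := k) (D := E) (fun h => hk (Finset.mem_insert_of_mem h))
  set u : ℝ := 1 / al k ^ 2
  have h4 : (u : ℂ) * conj ((st al w E).c u) = 0 := by
    have : (inc (al j) (w j) (st al w E) - inc (al j) (w' j) (st al w E)) *
        ((u : ℂ) * conj ((st al w E).c u)) = 0 := by linear_combination e1 - e2
    exact (mul_eq_zero.1 this).resolve_left (sub_ne_zero.2 h3)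
  have h5 : (st al w E).a u = 0 := by
    linear_combination e1 - inc (al j) (w j) (st al w E) * h4
  apply hn
  unfold nrm
  have h6 : ((u * normSq ((st al w E).c u) : ℝ) : ℂ) = 0 := by
    push_cast
    rw [← mul_conj]
    linear_combination (st al w E).c u * h4
  have h7 : u * normSq ((st al w E).c u) = 0 := by exact_mod_cast h6
  rw [h5, h7]; simp

theorem ratio_ne_aux {al : ι → ℝ} (hpos : ∀ j, 0 < al j) (hinj : Function.Injective al)
    {D D' : Finset ι} {k j : ι} (hk : k ∉ D) (hk' : k ∉ D') (hj : j ∈ D) (hj' : j ∉ D') :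
    ∃ w, (st al w D).c (1 / al k ^ 2) * (st al w D').a (1 / al k ^ 2) -
      (st al w D').c (1 / al k ^ 2) * (st al w D).a (1 / al k ^ 2) ≠ 0 := by
  obtain ⟨E, hE, rfl⟩ : ∃ E, j ∉ E ∧ insert j E = D :=
    ⟨D.erase j, Finset.notMem_erase _ _, Finset.insert_erase hj⟩
  obtain ⟨w, w', h1, h2, h3⟩ := two_inc hpos hinj hE
  by_contra hc
  push Not at hc
  have e1 := hc w
  have e2 := hc w'
  have h2' : st al w' D' = st al w D' :=
    st_congr al (fun i hi => (h1 i (fun h => hj' (h ▸ hi))).symm)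
  rw [st_insert hpos hinj _ hE] at e1 e2
  rw [← h2, h2'] at e2
  simp only [step, stp] at e1 e2
  have hn := nrm_ne hpos hinj w (k := k) (D := E) (fun h => hk (Finset.mem_insert_of_mem h))
  have hn' := nrm_ne hpos hinj w (k := k) (D := D') hk'
  set u : ℝ := 1 / al k ^ 2
  set a := (st al w E).a u
  set c := (st al w E).c u
  set P := (st al w D').a u
  set Q := (st al w D').c u
  have k1 : conj a * P - u * conj c * Q = 0 := by
    have : (inc (al j) (w j) (st al w E) - inc (al j) (w' j) (st al w E)) *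
        (conj a * P - u * conj c * Q) = 0 := by linear_combination e1 - e2
    exact (mul_eq_zero.1 this).resolve_left (sub_ne_zero.2 h3)
  have k2 : c * P - Q * a = 0 := by
    linear_combination e1 - inc (al j) (w j) (st al w E) * k1
  have hdet : (a * conj a - u * (c * conj c)) ≠ 0 := by
    intro h0
    apply hn
    have : ((nrm (st al w E) u : ℝ) : ℂ) = 0 := by
      unfold nrm
      push_cast
      rw [← mul_conj, ← mul_conj]
      exact h0
    exact_mod_cast this
  have hP : P = 0 := by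
    have : (a * conj a - u * (c * conj c)) * P = 0 := by
      linear_combination a * k1 - u * conj c * k2
    exact (mul_eq_zero.1 this).resolve_left hdet
  have hQ : Q = 0 := by
    have : (a * conj a - u * (c * conj c)) * Q = 0 := by
      linear_combination c * k1 - conj a * k2
    exact (mul_eq_zero.1 this).resolve_left hdet
  apply hn'
  unfold nrm
  rw [show (st al w D').a u = 0 from hP, show (st al w D').c u = 0 from hQ]
  simp

theorem ratio_ne {al : ι → ℝ} (hpos : ∀ j, 0 < al j) (hinj : Function.Injective al)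
    {D D' : Finset ι} {k : ι} (hk : k ∉ D) (hk' : k ∉ D') (hne : D ≠ D') :
    ∃ w, (st al w D).c (1 / al k ^ 2) * (st al w D').a (1 / al k ^ 2) -
      (st al w D').c (1 / al k ^ 2) * (st al w D).a (1 / al k ^ 2) ≠ 0 := by
  by_cases h : D ⊆ D'
  · have h' : ¬ D' ⊆ D := fun h'' => hne (h.antisymm h'')
    obtain ⟨j, hj, hj'⟩ := Finset.not_subset.1 h'
    obtain ⟨w, hw⟩ := ratio_ne_aux hpos hinj hk' hk hj hj'
    exact ⟨w, fun h0 => hw (by linear_combination -h0)⟩
  · obtain ⟨j, hj, hj'⟩ := Finset.not_subset.1 h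
    exact ratio_ne_aux hpos hinj hk hk' hj hj'

end

/-! ### The functions at `u = 0`, the relation `x conj a - c = u e`, continuity in `u` -/

theorem run_zero (al : ι → ℝ) (w : ι → Circle) (L : List ι) :
    (run al w L).a 0 = 1 ∧ (run al w L).c 0 = (run al w L).x := by
  induction L with
  | nil => simp [run, St.init]
  | cons j l ih => simp [run, step, stp, ih.1, ih.2]

theorem run_xac (al : ι → ℝ) (w : ι → Circle) (L : List ι) (u : ℝ) :
    (run al w L).x * conj ((run al w L).a u) - (run al w L).c u = u * (run al w L).e u := by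
  induction L with
  | nil => simp [run, St.init]
  | cons j l ih =>
    simp only [run, step, stp, map_add, map_mul, conj_conj, conj_ofReal]
    linear_combination ih

theorem run_cont (al : ι → ℝ) (w : ι → Circle) (L : List ι) :
    Continuous (run al w L).a ∧ Continuous (run al w L).c ∧ Continuous (run al w L).e := by
  induction L with
  | nil => exact ⟨continuous_const, continuous_const, continuous_const⟩
  | cons j l ih =>
    obtain ⟨h1, h2, h3⟩ := ih
    refine ⟨?_, ?_, ?_⟩
    · exact h1.add ((continuous_const.mul continuous_ofReal).mul (continuous_conj.comp h2))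
    · exact h2.add (continuous_const.mul (continuous_conj.comp h1))
    · exact h3.add (continuous_const.mul h2)

end Pool.Agent.UDQ
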