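import Mathlib

namespace Pool.Agent.UDQ

open Complex ComplexConjugate Polynomial

theorem infinite_unit_circle : {z : ℂ | ‖z‖ = 1}.Infinite := by
  refine Set.infinite_of_injective_forall_mem (f := fun n : ℕ => exp (((1 / (n + 1 : ℝ) : ℝ) : ℂ) * I))
    ?_ fun n => norm_exp_ofReal_mul_I _
  intro m n hmn
  have hm : (1 / (m + 1 : ℝ)) ∈ Set.Ioc (-Real.pi) Real.pi := by
    have h1 : (0 : ℝ) < 1 / (m + 1 : ℝ) := by positivity
    have h2 : (1 / (m + 1 : ℝ)) ≤ 1 := by
      rw [div_le_one (by positivity)]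
      linarith [(Nat.cast_nonneg m : (0 : ℝ) ≤ m)]
    exact ⟨by linarith [Real.pi_pos], by linarith [Real.pi_gt_three]⟩
  have hn : (1 / (n + 1 : ℝ)) ∈ Set.Ioc (-Real.pi) Real.pi := by
    have h1 : (0 : ℝ) < 1 / (n + 1 : ℝ) := by positivity
    have h2 : (1 / (n + 1 : ℝ)) ≤ 1 := by
      rw [div_le_one (by positivity)]
      linarith [(Nat.cast_nonneg n : (0 : ℝ) ≤ n)]
    exact ⟨by linarith [Real.pi_pos], by linarith [Real.pi_gt_three]⟩
  have h1 : (1 / (m + 1 : ℝ)) = 1 / (n + 1 : ℝ) := by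
    have h2 := congrArg Complex.arg hmn
    beta_reduce at h2
    rw [Complex.arg_exp_mul_I, Complex.arg_exp_mul_I, toIocMod_eq_self Real.two_pi_pos |>.2,
      toIocMod_eq_self Real.two_pi_pos |>.2] at h2
    · exact h2
    · rw [show -Real.pi + 2 * Real.pi = Real.pi by ring]
      exact hn
    · rw [show -Real.pi + 2 * Real.pi = Real.pi by ring]
      exact hm
  have h3 : (m + 1 : ℝ) = n + 1 := by
    have h4 : ((m : ℝ) + 1) ≠ 0 := by positivity
    have h5 : ((n : ℝ) + 1) ≠ 0 := by positivity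
    field_simp at h1
    linarith
  exact_mod_cast (add_right_cancel h3)

theorem eq_zero_of_circle (P : ℂ[X]) (h : ∀ z : ℂ, ‖z‖ = 1 → P.eval z = 0) : P = 0 :=
  Polynomial.eq_zero_of_infinite_isRoot P (infinite_unit_circle.mono h)

/-- Clearing denominators. -/
theorem eval_sum_clear {ι : Type*} [DecidableEq ι] (V : Finset ι) (n d : ι → ℂ[X]) (z : ℂ)
    (hd : ∀ U ∈ V, (d U).eval z ≠ 0) :
    (∑ U ∈ V, n U * ∏ W ∈ V.erase U, d W).eval z =
      (∑ U ∈ V, (n U).eval z / (d U).eval z) * ∏ W ∈ V, (d W).eval z := by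
  rw [Polynomial.eval_finsetSum, Finset.sum_mul]
  refine Finset.sum_congr rfl fun U hU => ?_
  rw [Polynomial.eval_mul, Polynomial.eval_prod, ← Finset.mul_prod_erase V _ hU]
  field_simp [hd U hU]

theorem mob_poles {ι : Type*} (V : Finset ι) (p A C : ι → ℂ) (c₀ : ℂ) (hA : ∀ i ∈ V, A i ≠ 0)
    (hAC : ∀ i ∈ V, ‖A i‖ ≠ ‖C i‖) (hne : ∀ i ∈ V, ∀ j ∈ V, i ≠ j → C i * A j ≠ C j * A i)
    (h : ∀ z : ℂ, ‖z‖ = 1 →
      c₀ + ∑ i ∈ V, p i * ((conj (A i) - conj (C i) * z) / (A i * z - C i)) = 0) :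
    ∀ i ∈ V, p i = 0 := by
  classical
  let d : ι → ℂ[X] := fun i => Polynomial.C (A i) * X - Polynomial.C (C i)
  let n : ι → ℂ[X] := fun i => Polynomial.C (p i) *
    (Polynomial.C (conj (A i)) - Polynomial.C (conj (C i)) * X)
  have hd : ∀ i z, (d i).eval z = A i * z - C i := fun i z => by simp [d]
  have hn : ∀ i z, (n i).eval z = p i * (conj (A i) - conj (C i) * z) := fun i z => by simp [n]
  let P : ℂ[X] := Polynomial.C c₀ * ∏ i ∈ V, d i + ∑ U ∈ V, n U * ∏ W ∈ V.erase U, d W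
  have hd0 : ∀ z : ℂ, ‖z‖ = 1 → ∀ i ∈ V, (d i).eval z ≠ 0 := by
    intro z hz i hi h0
    rw [hd, sub_eq_zero] at h0
    apply hAC i hi
    rw [← h0, norm_mul, hz, mul_one]
  have hP : P = 0 := by
    refine eq_zero_of_circle P fun z hz => ?_
    have h1 := h z hz
    change (Polynomial.C c₀ * ∏ i ∈ V, d i + ∑ U ∈ V, n U * ∏ W ∈ V.erase U, d W).eval z = 0
    rw [Polynomial.eval_add, eval_sum_clear V n d z (hd0 z hz), Polynomial.eval_mul,
      Polynomial.eval_C, Polynomial.eval_prod, ← add_mul]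
    have h2 : c₀ + ∑ U ∈ V, (n U).eval z / (d U).eval z = 0 := by
      rw [← h1]
      congr 1
      refine Finset.sum_congr rfl fun i _ => ?_
      rw [hd, hn, mul_div_assoc]
    rw [h2, zero_mul]
  intro i hi
  have h0 : P.eval (C i / A i) = 0 := by rw [hP, Polynomial.eval_zero]
  have hAi := hA i hi
  have hdi : (d i).eval (C i / A i) = 0 := by
    rw [hd]
    field_simp
    ring
  have hdj : ∀ j ∈ V.erase i, (d j).eval (C i / A i) ≠ 0 := by
    intro j hj h3
    rw [hd] at h3
    have hj' := Finset.mem_erase.1 hj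
    apply hne j hj'.2 i hi hj'.1
    field_simp at h3
    linear_combination -h3
  have h1 : P.eval (C i / A i) = (n i).eval (C i / A i) *
      ∏ j ∈ V.erase i, (d j).eval (C i / A i) := by
    change (Polynomial.C c₀ * ∏ i ∈ V, d i + ∑ U ∈ V, n U * ∏ W ∈ V.erase U, d W).eval _ = _
    rw [Polynomial.eval_add, Polynomial.eval_mul, Polynomial.eval_prod,
      Finset.prod_eq_zero hi hdi, mul_zero, zero_add, Polynomial.eval_finsetSum,
      Finset.sum_eq_single_of_mem i hi]
    · rw [Polynomial.eval_mul, Polynomial.eval_prod]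
    · intro j hj hji
      rw [Polynomial.eval_mul, Polynomial.eval_prod,
        Finset.prod_eq_zero (Finset.mem_erase.2 ⟨Ne.symm hji, hi⟩) hdi, mul_zero]
  rw [h1, mul_eq_zero] at h0
  have h2 : (n i).eval (C i / A i) = 0 := by
    rcases h0 with h0 | h0
    · exact h0
    · exact absurd h0 (Finset.prod_ne_zero_iff.2 hdj)
  rw [hn, mul_eq_zero] at h2
  rcases h2 with h2 | h2
  · exact h2
  · exfalso
    have h3 : conj (A i) * A i = conj (C i) * C i := by
      have h4 : conj (A i) * A i - conj (C i) * C i = 0 := by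
        have h5 : conj (A i) * A i - conj (C i) * C i =
            (conj (A i) - conj (C i) * (C i / A i)) * A i := by
          field_simp
        rw [h5, h2, zero_mul]
      exact sub_eq_zero.1 h4
    rw [mul_comm, Complex.mul_conj, mul_comm (conj (C i)), Complex.mul_conj] at h3
    apply hAC i hi
    have h6 : Complex.normSq (A i) = Complex.normSq (C i) := by exact_mod_cast h3
    rw [Complex.normSq_eq_norm_sq, Complex.normSq_eq_norm_sq] at h6
    exact (sq_eq_sq₀ (norm_nonneg _) (norm_nonneg _)).1 h6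

theorem mob_residue {ι : Type*} (V : Finset ι) (S : ι) (hS : S ∈ V) (x A C : ι → ℂ) (t : ℝ)
    (ht : 0 < t) (hAC : ∀ U ∈ V, ‖C U‖ < ‖A U‖) (hC : ∀ U ∈ V, U ≠ S → C U ≠ 0) (hxS : x S = 0)
    (hCS : C S = 0) (hAS : A S = t) (th et : ι → ℝ)
    (h : ∀ z : ℂ, ‖z‖ = 1 → ((∑ U ∈ V, (th U : ℂ) * (x U + t * (A U * z - C U) /
      (conj (A U) - conj (C U) * z))) * conj (∑ U ∈ V, (et U : ℂ) * (x U + t * (A U * z - C U) /
      (conj (A U) - conj (C U) * z)))).im = 0) :
    ∑ U ∈ V, ((et S * th U - th S * et U : ℝ) : ℂ) * (x U - t * C U / conj (A U)) = 0 := by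
  classical
  have ht' : (t : ℂ) ≠ 0 := by exact_mod_cast ht.ne'
  -- the denominators
  let d : ι → ℂ[X] := fun U => Polynomial.C (conj (A U)) - Polynomial.C (conj (C U)) * X
  let e : ι → ℂ[X] := fun U => Polynomial.C (A U) * X - Polynomial.C (C U)
  -- the numerators
  let n : (ι → ℝ) → ι → ℂ[X] := fun th U => Polynomial.C (th U : ℂ) *
    (Polynomial.C (x U) * d U + Polynomial.C (t : ℂ) * e U)
  let m : (ι → ℝ) → ι → ℂ[X] := fun th U => Polynomial.C (th U : ℂ) *
    (Polynomial.C (conj (x U)) * e U + Polynomial.C (t : ℂ) * d U)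
  have hd : ∀ U z, (d U).eval z = conj (A U) - conj (C U) * z := fun U z => by simp [d]
  have he : ∀ U z, (e U).eval z = A U * z - C U := fun U z => by simp [e]
  have hn : ∀ th U z, (n th U).eval z = (th U : ℂ) * (x U * (conj (A U) - conj (C U) * z) +
    t * (A U * z - C U)) := fun th U z => by simp [n, hd, he]
  have hm : ∀ th U z, (m th U).eval z = (th U : ℂ) * (conj (x U) * (A U * z - C U) +
    t * (conj (A U) - conj (C U) * z)) := fun th U z => by simp [m, hd, he]
  have hd0 : ∀ z : ℂ, ‖z‖ ≤ 1 → ∀ U ∈ V, (d U).eval z ≠ 0 := by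
    intro z hz U hU h0
    rw [hd, sub_eq_zero] at h0
    have h1 := hAC U hU
    have h2 : ‖A U‖ = ‖C U‖ * ‖z‖ := by
      rw [← RCLike.norm_conj (A U), h0, norm_mul, RCLike.norm_conj]
    nlinarith [norm_nonneg (C U), norm_nonneg z]
  have he0 : ∀ z : ℂ, ‖z‖ = 1 → ∀ U ∈ V, (e U).eval z ≠ 0 := by
    intro z hz U hU h0
    rw [he, sub_eq_zero] at h0
    have h1 := hAC U hU
    rw [← h0, norm_mul, hz, mul_one] at h1
    exact lt_irrefl _ h1
  let F : (ι → ℝ) → ℂ[X] := fun th => ∑ U ∈ V, n th U * ∏ W ∈ V.erase U, d W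
  let M : (ι → ℝ) → ℂ[X] := fun th => X * ∑ U ∈ V.erase S, m th U * ∏ W ∈ (V.erase S).erase U, e W +
    Polynomial.C ((th S : ℂ) * t) * ∏ W ∈ V.erase S, e W
  have hF : ∀ th z, ‖z‖ ≤ 1 → (F th).eval z = (∑ U ∈ V, (th U : ℂ) *
      (x U + t * (A U * z - C U) / (conj (A U) - conj (C U) * z))) * ∏ W ∈ V, (d W).eval z := by
    intro th z hz
    change (∑ U ∈ V, n th U * ∏ W ∈ V.erase U, d W).eval z = _
    rw [eval_sum_clear V (n th) d z (hd0 z hz)]
    congr 1
    refine Finset.sum_congr rfl fun U hU => ?_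
    have h1 := hd0 z hz U hU
    rw [hd] at h1
    rw [hn, hd]
    field_simp
  have hM : ∀ th z, ‖z‖ = 1 → (M th).eval z = z * conj (∑ U ∈ V, (th U : ℂ) *
      (x U + t * (A U * z - C U) / (conj (A U) - conj (C U) * z))) *
      ∏ W ∈ V.erase S, (e W).eval z := by
    intro th z hz
    have hz0 : z ≠ 0 := by
      rintro rfl
      rw [norm_zero] at hz
      exact zero_ne_one hz
    have hzz : conj z = z⁻¹ := by
      have h1 : z * conj z = 1 := by
        rw [Complex.mul_conj, Complex.normSq_eq_norm_sq, hz]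
        norm_num
      exact eq_inv_of_mul_eq_one_right h1
    change (X * ∑ U ∈ V.erase S, m th U * ∏ W ∈ (V.erase S).erase U, e W +
      Polynomial.C ((th S : ℂ) * t) * ∏ W ∈ V.erase S, e W).eval z = _
    rw [Polynomial.eval_add, Polynomial.eval_mul, Polynomial.eval_X,
      eval_sum_clear (V.erase S) (m th) e z (fun U hU => he0 z hz U (Finset.mem_of_mem_erase hU)),
      Polynomial.eval_mul, Polynomial.eval_C, Polynomial.eval_prod, ← mul_assoc, ← add_mul]
    congr 1
    rw [map_sum, ← Finset.add_sum_erase V _ hS, mul_add, Finset.mul_sum, Finset.mul_sum, add_comm]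
    congr 1
    · rw [hxS, hAS, hCS]
      simp only [map_mul, map_zero, map_div₀, Complex.conj_ofReal, hzz, zero_mul,
        sub_zero, zero_add]
      field_simp
    · refine Finset.sum_congr rfl fun U hU => ?_
      have h1 := he0 z hz U (Finset.mem_of_mem_erase hU)
      rw [he] at h1
      rw [hm, he]
      simp only [map_mul, map_add, map_div₀, map_sub, Complex.conj_ofReal, Complex.conj_conj, hzz]
      have h2 : A U - C U * z⁻¹ ≠ 0 := by
        intro h3
        apply h1
        have h4 : A U * z - C U = (A U - C U * z⁻¹) * z := by field_simp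
        rw [h4, h3, zero_mul]
      have h5 : (A U - C U * z⁻¹) = (A U * z - C U) / z := by field_simp
      rw [h5]
      generalize hq : A U * z - C U = q at *
      field_simp
  let Q : ℂ[X] := F th * M et - M th * F et
  have hQ : Q = 0 := by
    refine eq_zero_of_circle Q fun z hz => ?_
    change (F th * M et - M th * F et).eval z = 0
    rw [Polynomial.eval_sub, Polynomial.eval_mul, Polynomial.eval_mul, hF th z hz.le, hF et z hz.le,
      hM th z hz, hM et z hz]
    have h1 := h z hz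
    set f := ∑ U ∈ V, (th U : ℂ) * (x U + t * (A U * z - C U) / (conj (A U) - conj (C U) * z))
    set g := ∑ U ∈ V, (et U : ℂ) * (x U + t * (A U * z - C U) / (conj (A U) - conj (C U) * z))
    have h2 : f * conj g = conj f * g := by
      have h3 : conj (f * conj g) = f * conj g := Complex.conj_eq_iff_im.2 h1
      rw [← h3, map_mul, Complex.conj_conj]
    linear_combination (z * (∏ W ∈ V, (d W).eval z) * ∏ W ∈ V.erase S, (e W).eval z) * h2
  have h0 : Q.eval 0 = 0 := by rw [hQ, Polynomial.eval_zero]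
  have hM0 : ∀ th, (M th).eval 0 = (th S : ℂ) * t * ∏ W ∈ V.erase S, (e W).eval 0 := by
    intro th
    change (X * ∑ U ∈ V.erase S, m th U * ∏ W ∈ (V.erase S).erase U, e W +
      Polynomial.C ((th S : ℂ) * t) * ∏ W ∈ V.erase S, e W).eval 0 = _
    rw [Polynomial.eval_add, Polynomial.eval_mul, Polynomial.eval_X, zero_mul, zero_add,
      Polynomial.eval_mul, Polynomial.eval_C, Polynomial.eval_prod]
  have hF0 : ∀ th, (F th).eval 0 = (∑ U ∈ V, (th U : ℂ) * (x U - t * C U / conj (A U))) *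
      ∏ W ∈ V, (d W).eval 0 := by
    intro th
    rw [hF th 0 (by rw [norm_zero]; exact zero_le_one)]
    congr 1
    refine Finset.sum_congr rfl fun U _ => ?_
    rw [mul_zero, mul_zero, zero_sub, sub_zero, mul_neg, neg_div, ← sub_eq_add_neg]
  change (F th * M et - M th * F et).eval 0 = 0 at h0
  rw [Polynomial.eval_sub, Polynomial.eval_mul, Polynomial.eval_mul, hF0, hF0, hM0, hM0] at h0
  have h1 : (∏ W ∈ V, (d W).eval 0) ≠ 0 :=
    Finset.prod_ne_zero_iff.2 (hd0 0 (by rw [norm_zero]; exact zero_le_one))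
  have h2 : (∏ W ∈ V.erase S, (e W).eval 0) ≠ 0 := by
    refine Finset.prod_ne_zero_iff.2 fun W hW => ?_
    rw [he, mul_zero, zero_sub]
    exact neg_ne_zero.2 (hC W (Finset.mem_of_mem_erase hW) (Finset.ne_of_mem_erase hW))
  have h3 : ∑ U ∈ V, ((et S * th U - th S * et U : ℝ) : ℂ) * (x U - t * C U / conj (A U)) =
      (et S : ℂ) * (∑ U ∈ V, (th U : ℂ) * (x U - t * C U / conj (A U))) -
      (th S : ℂ) * (∑ U ∈ V, (et U : ℂ) * (x U - t * C U / conj (A U))) := by
    rw [Finset.mul_sum, Finset.mul_sum, ← Finset.sum_sub_distrib]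
    refine Finset.sum_congr rfl fun U _ => ?_
    push_cast
    ring
  rw [h3]
  have h4 : ((et S : ℂ) * (∑ U ∈ V, (th U : ℂ) * (x U - t * C U / conj (A U))) -
      (th S : ℂ) * (∑ U ∈ V, (et U : ℂ) * (x U - t * C U / conj (A U)))) *
      (t * (∏ W ∈ V, (d W).eval 0) * ∏ W ∈ V.erase S, (e W).eval 0) = 0 := by
    linear_combination h0
  exact (mul_eq_zero.1 h4).resolve_right (mul_ne_zero (mul_ne_zero ht' h1) h2)

end Pool.Agent.UDQ
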