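import Pool.Agent.Lib.MP_05df08_co.Q.A3
import Pool.Agent.Lib.MP_05df08_co.Q.A4

/-! # MP_05df08_co, Part A: non-parallel real combinations are generically non-parallel points -/

namespace Pool.Agent.UDQ

open Complex ComplexConjugate Filter Topology

variable {ι : Type*} [DecidableEq ι]

/-- `Σ_U θ_U X_w(U)`. -/
noncomputable def cmb (V : Finset (Finset ι)) (al : ι → ℝ) (w : ι → Circle)
    (th : Finset ι → ℝ) : ℂ := ∑ U ∈ V, (th U : ℂ) * X al w U

theorem rebased {al : ι → ℝ} (hpos : ∀ j, 0 < al j) (hinj : Function.Injective al)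
    (V : Finset (Finset ι)) {t : ℝ} (ht : 0 < t) (hta : ∀ j, t ≠ al j) (w : ι → Circle)
    (z : Circle) (S : Finset ι) : ∃ w₁ : ι → Circle, ∀ th : Finset ι → ℝ,
      ∑ U ∈ V, th U = 0 → cmb V al w₁ th = ∑ U ∈ V, (th U : ℂ) *
        (X al w (symmDiff U S) + inc t z (st al w (symmDiff U S))) := by
  set al' : Option ι → ℝ := fun o => o.elim t al with hal'
  set w' : Option ι → Circle := fun o => o.elim z w with hw'
  have hpos' : ∀ o, 0 < al' o := by
    rintro (_ | j)
    · exact ht
    · exact hpos j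
  have hinj' : Function.Injective al' := by
    rintro (_ | i) (_ | j) h
    · rfl
    · exact absurd h (hta j)
    · exact absurd h.symm (hta i)
    · exact congrArg some (hinj h)
  obtain ⟨w₂, h₂⟩ := rebase hpos' hinj' w' (insert none (S.map Function.Embedding.some))
  refine ⟨fun j => w₂ (some j), fun th hth => ?_⟩
  have key : ∀ U : Finset ι, X al w (symmDiff U S) + inc t z (st al w (symmDiff U S)) =
      X al (fun j => w₂ (some j)) U -
        X al' w₂ (insert none (S.map Function.Embedding.some)) := by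
    intro U
    have h3 := h₂ (U.map Function.Embedding.some)
    have hn : ∀ D : Finset ι, none ∉ D.map Function.Embedding.some := by
      intro D h
      rw [Finset.mem_map] at h
      obtain ⟨a, _, ha⟩ := h
      exact Option.some_ne_none a ha
    have h4 : symmDiff (U.map Function.Embedding.some)
        (insert none (S.map Function.Embedding.some)) =
        insert none ((symmDiff U S).map Function.Embedding.some) := by
      ext o
      rcases o with _ | j
      · simp [Finset.mem_symmDiff]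
      · simp [Finset.mem_symmDiff]
    rw [h4, X_insert hpos' hinj' w' (hn _)] at h3
    have h5 : ∀ (v : Option ι → Circle) (D : Finset ι), st al' v (D.map Function.Embedding.some) =
        st al (fun j => v (some j)) D := fun v D => st_map hpos' hinj' v _ D
    unfold X at h3 ⊢
    rw [h5, h5] at h3
    exact h3.symm
  rw [Finset.sum_congr rfl (fun U _ => by rw [key U])]
  have h6 : ∑ U ∈ V, ((th U : ℝ) : ℂ) = 0 := by exact_mod_cast hth
  simp only [mul_sub, Finset.sum_sub_distrib, ← Finset.sum_mul]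
  rw [h6, zero_mul, sub_zero]
  rfl

theorem sum_residue {al : ι → ℝ} (hpos : ∀ j, 0 < al j) (hinj : Function.Injective al)
    {V : Finset (Finset ι)} {th et : Finset ι → ℝ} (h1 : ∑ U ∈ V, th U = 0)
    (h2 : ∑ U ∈ V, et U = 0)
    (H : ∀ w : ι → Circle, (cmb V al w th * conj (cmb V al w et)).im = 0)
    {S : Finset ι} (hS : S ∈ V) {t : ℝ} (ht : 0 < t) (hta : ∀ j, al j < t) (w : ι → Circle)
    (hc : ∀ U ∈ V, U ≠ S → (st al w (symmDiff U S)).c (1 / t ^ 2) ≠ 0) :
    ∑ U ∈ V, ((et S * th U - th S * et U : ℝ) : ℂ) *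
      ((st al w (symmDiff U S)).e (1 / t ^ 2) / conj ((st al w (symmDiff U S)).a (1 / t ^ 2)))
        = 0 := by
  have hnrm : ∀ D : Finset ι, 0 < nrm (st al w D) (1 / t ^ 2) := by
    intro D
    rw [nrm_st hpos hinj]
    refine Finset.prod_pos fun j _ => ?_
    have h3 := hta j
    have h4 := hpos j
    have h5 : al j ^ 2 < t ^ 2 := by gcongr
    have h6 : (0:ℝ) < t ^ 2 := by positivity
    rw [one_div, inv_mul_eq_div, sub_pos, div_lt_one h6]
    exact h5
  have htc : (t : ℂ) ≠ 0 := by exact_mod_cast ht.ne'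
  have hAC : ∀ U ∈ V, ‖(st al w (symmDiff U S)).c (1 / t ^ 2)‖ <
      ‖(t : ℂ) * (st al w (symmDiff U S)).a (1 / t ^ 2)‖ := by
    intro U _
    have h3 := hnrm (symmDiff U S)
    unfold nrm at h3
    rw [normSq_eq_norm_sq, normSq_eq_norm_sq] at h3
    have h4 : ‖(st al w (symmDiff U S)).c (1 / t ^ 2)‖ ^ 2 <
        ‖(t : ℂ) * (st al w (symmDiff U S)).a (1 / t ^ 2)‖ ^ 2 := by
      rw [norm_mul, norm_real, Real.norm_of_nonneg ht.le, mul_pow]
      have h6 : (0:ℝ) < t ^ 2 := by positivity
      have h7 := mul_pos h6 h3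
      have h8 : t ^ 2 * (1 / t ^ 2 * ‖(st al w (symmDiff U S)).c (1 / t ^ 2)‖ ^ 2) =
          ‖(st al w (symmDiff U S)).c (1 / t ^ 2)‖ ^ 2 := by field_simp
      rw [mul_sub, h8] at h7
      linarith
    exact lt_of_pow_lt_pow_left₀ 2 (norm_nonneg _) h4
  have key := mob_residue V S hS (fun U => X al w (symmDiff U S))
    (fun U => t * (st al w (symmDiff U S)).a (1 / t ^ 2))
    (fun U => (st al w (symmDiff U S)).c (1 / t ^ 2)) t ht hAC hc
    (by simp [X_empty]) (by simp [st_empty, St.init]) (by simp [st_empty, St.init]) th et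
    (by
      intro z hz
      obtain ⟨w₁, hw₁⟩ := rebased hpos hinj V ht (fun j => (hta j).ne') w
        (⟨z, mem_sphere_zero_iff_norm.2 hz⟩ : Circle) S
      have h3 := H w₁
      rw [hw₁ th h1, hw₁ et h2] at h3
      simpa only [inc_eq] using h3)
  have hu : ((1 / t ^ 2 : ℝ) : ℂ) ≠ 0 := by
    have : (0:ℝ) < 1 / t ^ 2 := by positivity
    exact_mod_cast this.ne'
  have e1 : ∀ U ∈ V, ((et S * th U - th S * et U : ℝ) : ℂ) * (X al w (symmDiff U S) -
      t * (st al w (symmDiff U S)).c (1 / t ^ 2) /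
        conj ((t : ℂ) * (st al w (symmDiff U S)).a (1 / t ^ 2))) =
      ((1 / t ^ 2 : ℝ) : ℂ) * (((et S * th U - th S * et U : ℝ) : ℂ) *
      ((st al w (symmDiff U S)).e (1 / t ^ 2) /
        conj ((st al w (symmDiff U S)).a (1 / t ^ 2)))) := by
    intro U hU
    have h3 := run_xac al w (symmDiff U S).toList (1 / t ^ 2)
    have ha : conj ((st al w (symmDiff U S)).a (1 / t ^ 2)) ≠ 0 := by
      rw [map_ne_zero]
      intro h0
      have := hAC U hU
      rw [h0, mul_zero, norm_zero] at this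
      exact absurd this (not_lt.2 (norm_nonneg _))
    have h4 : X al w (symmDiff U S) * conj ((st al w (symmDiff U S)).a (1 / t ^ 2)) -
      (st al w (symmDiff U S)).c (1 / t ^ 2) =
        ((1 / t ^ 2 : ℝ) : ℂ) * (st al w (symmDiff U S)).e (1 / t ^ 2) := h3
    rw [map_mul, conj_ofReal]
    rw [mul_div_mul_left _ _ htc]
    have h5 : X al w (symmDiff U S) - (st al w (symmDiff U S)).c (1 / t ^ 2) /
        conj ((st al w (symmDiff U S)).a (1 / t ^ 2)) =
        (X al w (symmDiff U S) * conj ((st al w (symmDiff U S)).a (1 / t ^ 2)) -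
      (st al w (symmDiff U S)).c (1 / t ^ 2)) /
        conj ((st al w (symmDiff U S)).a (1 / t ^ 2)) := by
      rw [sub_div, mul_div_cancel_right₀ _ ha]
    rw [h5, h4]
    ring
  rw [Finset.sum_congr rfl e1, ← Finset.mul_sum] at key
  exact (mul_eq_zero.1 key).resolve_left hu

/-- The values `e_D(0)`. -/
noncomputable def y0 (al : ι → ℝ) (w : ι → Circle) (D : Finset ι) : ℂ := (st al w D).e 0

theorem sum_y_of_ne [Finite ι] {al : ι → ℝ} (hpos : ∀ j, 0 < al j) (hinj : Function.Injective al)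
    {V : Finset (Finset ι)} {th et : Finset ι → ℝ} (h1 : ∑ U ∈ V, th U = 0)
    (h2 : ∑ U ∈ V, et U = 0)
    (H : ∀ w : ι → Circle, (cmb V al w th * conj (cmb V al w et)).im = 0)
    {S : Finset ι} (hS : S ∈ V) (w : ι → Circle)
    (hx : ∀ U ∈ V, U ≠ S → X al w (symmDiff U S) ≠ 0) :
    ∑ U ∈ V, ((et S * th U - th S * et U : ℝ) : ℂ) * y0 al w (symmDiff U S) = 0 := by
  -- continuity at `u = 0`
  set G : ℝ → ℂ := fun u => ∑ U ∈ V, ((et S * th U - th S * et U : ℝ) : ℂ) *
      ((st al w (symmDiff U S)).e u / conj ((st al w (symmDiff U S)).a u)) with hG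
  have ha0 : ∀ D : Finset ι, (st al w D).a 0 = 1 := fun D => (run_zero al w D.toList).1
  have hc0 : ∀ D : Finset ι, (st al w D).c 0 = X al w D := fun D => (run_zero al w D.toList).2
  have hca : ∀ D : Finset ι, Continuous (st al w D).a := fun D => (run_cont al w D.toList).1
  have hcc : ∀ D : Finset ι, Continuous (st al w D).c := fun D => (run_cont al w D.toList).2.1
  have hce : ∀ D : Finset ι, Continuous (st al w D).e := fun D => (run_cont al w D.toList).2.2
  have hGc : ContinuousAt G 0 := by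
    refine tendsto_finsetSum _ fun U _ => ?_
    refine ContinuousAt.mul continuousAt_const ?_
    refine ContinuousAt.div (hce _).continuousAt (continuous_conj.comp (hca _)).continuousAt ?_
    rw [ha0]; simp
  have hG0 : G 0 = ∑ U ∈ V, ((et S * th U - th S * et U : ℝ) : ℂ) * y0 al w (symmDiff U S) := by
    simp only [hG, ha0, map_one, div_one]
    rfl
  rw [← hG0]
  -- zero for small positive `u`
  have hcn : ∀ U ∈ V, U ≠ S → ∀ᶠ u in 𝓝 (0:ℝ), (st al w (symmDiff U S)).c u ≠ 0 := by
    intro U hU hne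
    refine (hcc _).continuousAt.eventually_ne ?_
    rw [hc0]
    exact hx U hU hne
  have hcn' : ∀ᶠ u in 𝓝 (0:ℝ), ∀ U ∈ V, U ≠ S → (st al w (symmDiff U S)).c u ≠ 0 := by
    rw [Filter.eventually_all_finset]
    intro U hU
    by_cases h : U = S
    · exact Eventually.of_forall fun u h' => absurd h h'
    · filter_upwards [hcn U hU h] with u hu _ using hu
  have hev : ∀ᶠ u in 𝓝[>] (0:ℝ), G u = 0 := by
    have hb : ∀ᶠ u in 𝓝[>] (0:ℝ), ∀ j, u * al j ^ 2 < 1 := by
      rw [Filter.eventually_all]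
      intro j
      have : Continuous (fun u : ℝ => u * al j ^ 2) := by fun_prop
      have h3 : ∀ᶠ u in 𝓝 (0:ℝ), u * al j ^ 2 < 1 :=
        this.continuousAt.eventually_lt continuousAt_const (by simp)
      exact h3.filter_mono nhdsWithin_le_nhds
    filter_upwards [hcn'.filter_mono nhdsWithin_le_nhds, hb, self_mem_nhdsWithin] with u hu1 hu2 hu3
    have hu : (0:ℝ) < u := hu3
    have hs : 0 < √u := Real.sqrt_pos.2 hu
    have hsq : √u ^ 2 = u := Real.sq_sqrt hu.le
    have hts : 1 / (1 / √u) ^ 2 = u := by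
      rw [div_pow, one_pow, one_div_one_div, hsq]
    have key := sum_residue hpos hinj h1 h2 H hS (t := 1 / √u) (by positivity)
      (fun j => by
        rw [lt_div_iff₀ hs]
        have h4 := hu2 j
        have h5 : (al j * √u) ^ 2 < 1 ^ 2 := by
          rw [mul_pow, hsq]; linarith
        exact lt_of_pow_lt_pow_left₀ 2 (by norm_num) h5) w
      (fun U hU hne => by rw [hts]; exact hu1 U hU hne)
    rw [hts] at key
    exact key
  have hlim : Tendsto G (𝓝[>] (0:ℝ)) (𝓝 (G 0)) := hGc.tendsto.mono_left nhdsWithin_le_nhds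
  have hlim0 : Tendsto G (𝓝[>] (0:ℝ)) (𝓝 0) := by
    refine tendsto_const_nhds.congr' ?_
    filter_upwards [hev] with u hu using hu.symm
  exact tendsto_nhds_unique hlim hlim0

theorem sum_y [Fintype ι] {al : ι → ℝ} (hpos : ∀ j, 0 < al j) (hinj : Function.Injective al)
    {V : Finset (Finset ι)} {th et : Finset ι → ℝ} (h1 : ∑ U ∈ V, th U = 0)
    (h2 : ∑ U ∈ V, et U = 0)
    (H : ∀ w : ι → Circle, (cmb V al w th * conj (cmb V al w et)).im = 0)
    {S : Finset ι} (hS : S ∈ V) (w : ι → Circle) :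
    ∑ U ∈ V, ((et S * th U - th S * et U : ℝ) : ℂ) * y0 al w (symmDiff U S) = 0 := by
  obtain ⟨φ, rfl⟩ := exists_angle w
  have hd := (dense_ne (Finset.univ.filter (fun D : Finset ι => D.Nonempty))
    (fun D φ => X al (ew φ) D) (fun D _ φ => an_X hpos hinj D φ)
    (fun D hD => by
      obtain ⟨w, hw⟩ := x_ne hpos hinj (Finset.mem_filter.1 hD).2
      obtain ⟨φ, rfl⟩ := exists_angle w
      exact ⟨φ, hw⟩)).2
  have hcont : Continuous (fun φ : ι → ℝ => ∑ U ∈ V, ((et S * th U - th S * et U : ℝ) : ℂ) *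
      y0 al (ew φ) (symmDiff U S)) := by
    refine continuous_finsetSum _ fun U _ => continuous_const.mul ?_
    exact continuous_iff_continuousAt.2 fun φ => ((an_st hpos hinj _).e 0 φ).continuousAt
  have := Continuous.ext_on hd hcont (continuous_const (y := (0:ℂ))) (fun ψ hψ => by
    refine sum_y_of_ne hpos hinj h1 h2 H hS (ew ψ) fun U hU hne => hψ _ ?_
    rw [Finset.mem_filter]
    refine ⟨Finset.mem_univ _, ?_⟩
    rw [Finset.nonempty_iff_ne_empty]
    intro h0
    exact hne (symmDiff_eq_bot.1 h0))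
  exact congrFun this φ

end Pool.Agent.UDQ
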